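import Pool.Agent.X182.NA.Bwd

/-!
MP_52c2ea_lc, Q2: the product of two null-additive sets of reals is null-additive in the plane.
-/

open MeasureTheory
open scoped Pointwise

namespace Pool.Agent.Results.MP_52c2ea_lc.ProductNullAdditive

/-- **Q2, positive answer (ZFC).** If `X, Y ⊆ ℝ` are null-additive (`X + N` is Lebesgue null for
every Lebesgue null `N ⊆ ℝ`, and the same for `Y`), then `X × Y ⊆ ℝ²` is null-additive:
`(X × Y) + N` is Lebesgue null for every Lebesgue null `N ⊆ ℝ²`. -/
theorem result (X Y : Set ℝ)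
    (hX : ∀ N : Set ℝ, volume N = 0 → volume (X + N) = 0)
    (hY : ∀ N : Set ℝ, volume N = 0 → volume (Y + N) = 0) :
    ∀ N : Set (ℝ × ℝ), volume N = 0 → volume ((X ×ˢ Y : Set (ℝ × ℝ)) + N) = 0 :=
  Pool.Agent.X182.NA.product_nullAdditive X Y hX hY

end Pool.Agent.Results.MP_52c2ea_lc.ProductNullAdditive
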